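import Pool.Agent.J6H49.OP.Time

/-!
# The main theorem about nearly collapsed oracles, proof systems and search problems
-/

set_option autoImplicit false

namespace Pool.Agent.J6H49.OP

open MeasureTheory Filter Pool.Agent.NPC Pool.Agent.H628R3.RO Pool.Agent.J6H54.RO
open Pool.Agent.TH678.GC (join)
open Pool.Agent.TH678.RS (bt)
open Pool.Agent.Y626.WX (Cp cod exists_cp)
open Pool.Agent.J6H49.PHC (oracle)

theorem main (α : ℕ → ℕ) (hα : Monotone α) (hα' : Tendsto α atTop atTop) (C : Oracle) :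
    ∃ O : Oracle → Oracle,
      (∀ A, NearlyCollapsed α (O A) ∧ Contains (O A) A ∧ Contains (O A) C) ∧
      (∀ᵐ A ∂randomOracle, ∀ L, CoNPHardRel (O A) L → ¬ ∃ P, IsOptimal (O A) L P) ∧
      (∀ᵐ A ∂randomOracle, ∀ L, NPHardRel (O A) L → ¬ ∃ P, IsPOptimal (O A) L P) ∧
      (∀ᵐ A ∂randomOracle, ¬ ∃ R, IsTFNP (O A) R ∧
        ∀ R', IsTFNP (O A) R' → RedSearch (O A) R' R) := by
  obtain ⟨g, hg⟩ := Pool.Agent.H620R2.Gauge.CC.exists_enum
  obtain ⟨S, Φ, hc⟩ := exists_cp g (bt (slow2 α))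
  obtain ⟨E, e, h⟩ := exists_tbl hc C
  have h1 := slow2_mono hα
  have h2 := slow2_tendsto hα'
  refine ⟨oracle Φ (join E C), fun A => ⟨?_, ⟨[false, false], fun x => rfl⟩,
    ⟨[false, true, true], fun x => rfl⟩⟩, not_optimal hc h1 h2 h, not_pOptimal hc h1 h2 h,
    no_complete hc h1 h2 h⟩
  exact nearly hg hα hc (join A (join E C))

end Pool.Agent.J6H49.OP
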