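import Pool.Agent.J6H49.OP.Key
import Pool.Agent.J6H54.RO.FinS

/-!
# Proof systems and search problems relative to oracles with late information
-/

set_option autoImplicit false

namespace Pool.Agent.J6H49.OP

open MeasureTheory Filter Pool.Agent.NPC Pool.Agent.H628R3.RO Pool.Agent.J6H54.RO
open Pool.Agent.TH678.GC (join)
open Pool.Agent.TH678.RS (bt)
open Pool.Agent.Y626.WX (Cp)
open Pool.Agent.J6H49.PHC (oracle)

instance countable_polyNat : Countable (Polynomial ℕ) := by
  have : Function.Injective (fun p : Polynomial ℕ => (p.toFinsupp.coeff : ℕ →₀ ℕ)) := by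
    intro p q h
    ext n
    exact DFunLike.congr_fun h n
  exact this.countable

/-- the diagonalizations: against proof systems for a set hard for `coNP`, for `NP`, and against
search problems -/
abbrev Ev : Type := Alg ⊕ (Alg ⊕ (Alg × Polynomial ℕ))

/-- the bad events -/
def BadI : Ev → ℕ → ℕ → Set Oracle
  | .inl _ => BadT
  | .inr _ => BadS

/-- the error events -/
def ErrI (α : ℕ → ℕ) (Φ : Oracle → Oracle) (C E : Oracle) : Ev → ℕ → ℕ → Set Oracle
  | .inl M => EP α Φ (join E C) M
  | .inr (.inl M) => EP α Φ (join E C) M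
  | .inr (.inr q) => fun n _ => EF α Φ (join E C) q.1 q.2 n

variable {α : ℕ → ℕ} {g : ℕ → Pool.Agent.H620R2.Gauge.SAlg × Polynomial ℕ}
  {S : ℕ → Polynomial ℕ} {Φ : Oracle → Oracle} {C E : Oracle}
  {e : Ev → ℕ → List (List Bool) → ℕ}

/-- `E` is a table for the levels. -/
def Tbl (α : ℕ → ℕ) (Φ : Oracle → Oracle) (C E : Oracle) (e : Ev → ℕ → List (List Bool) → ℕ) :
    Prop :=
  ∀ i t L l N, E (pos (e i t L) l (List.replicate N true)) = true ↔
    l < vv (BadI i) (ErrI α Φ C E i) t L N

theorem exists_tbl (hc : Cp g S (bt α) Φ) (C : Oracle) : ∃ E e, Tbl α Φ C E e := by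
  obtain ⟨E, e, h⟩ := exists_table BadI (fun E i => ErrI α Φ C E i) (by
    intro E E' i n j hE
    have h1 : ∀ u : List Bool, u.length ≤ 2 ^ n → join E C u = join E' C u :=
      join_agree' hE fun _ _ => rfl
    rcases i with M | M | q
    · exact EP_congr hc M j h1
    · exact EP_congr hc M j h1
    · exact EF_congr hc q.1 q.2 h1)
  exact ⟨E, e, fun i t L l N => (h i t L l N).trans lt_vv.symm⟩

theorem O_tab (A x : List Bool → Bool) (y : List Bool) :
    oracle Φ (join x C) A ([false, true, false] ++ y) = x y := rfl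

/-- the axioms: the statements `code N (v N)` for `N` in the schedule -/
def axF (v : ℕ → ℕ) (x : List Bool) : List Bool :=
  if v x.length = 0 then [] else code x.length (v x.length)

theorem isFP_axF (h : Tbl α Φ C E e) (A : Oracle) (i : Ev) (t : ℕ) (L : List (List Bool)) :
    IsFP (oracle Φ (join E C) A) (axF (vv (BadI i) (ErrI α Φ C E i) t L)) := by
  have h1 := isFP_levels (B := oracle Φ (join E C) A) (E := E) [false, true, false]
    (fun y => O_tab A E y) (e i t L) (v := vv (BadI i) (ErrI α Φ C E i) t L) vv_le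
    (fun l N => h i t L l N) (m := fun x => x.length) (UPoly.length Poly.id)
    (Q := fun _ => []) (NPC.Poly.const [])
    (H := fun p => if p.2.1 = [] then [] else code p.1.length p.2.1.length) (by
      refine Poly.ite (Poly.decide_eq (Poly.fst (Poly.snd Poly.id)) (NPC.Poly.const []))
        (NPC.Poly.const []) (p_code (UPoly.length (Poly.fst Poly.id))
          (UPoly.length (Poly.fst (Poly.snd Poly.id)))))
  have h2 : (axF (vv (BadI i) (ErrI α Φ C E i) t L)) = (fun y : List Bool =>
      (fun p : List Bool × (List Bool × List Bool) =>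
        if p.2.1 = [] then [] else code p.1.length p.2.1.length)
      (y, (List.replicate (vv (BadI i) (ErrI α Φ C E i) t L y.length) true,
        (([] : List (List Bool)).map (oracle Φ (join E C) A))))) := by
    funext y
    unfold axF
    simp only [List.length_replicate, List.replicate_eq_nil_iff]
  rw [h2]
  exact h1

/-- adding axioms to a proof system -/
theorem addAx' {A : Oracle} {L₀ : Set (List Bool)} {P ax : List Bool → List Bool}
    (hP : IsProofSystem A L₀ P) (hax : IsFP A ax) (h : ∀ x, ax x ∈ L₀) :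
    IsProofSystem A L₀ (addSys (fun x => x) P ax) := by
  refine ⟨addSys_isFP (IsFP.of_poly Poly.id) hP.1 hax, ?_⟩
  ext x
  constructor
  · rintro ⟨w, rfl⟩
    unfold addSys
    split_ifs
    · exact h _
    · rw [← hP.2]
      exact ⟨_, rfl⟩
  · intro hx
    rw [← hP.2] at hx
    obtain ⟨v, hv⟩ := hx
    refine ⟨false :: v, ?_⟩
    unfold addSys
    rw [if_neg (by simp), List.tail_cons, hv]

theorem tendsto_Ts (t : ℕ) : Tendsto (Ts t) atTop atTop :=
  (Tt_strictMono Polynomial.X t).tendsto_atTop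

theorem locBad_T (n j : ℕ) (hj : j ≤ n) :
    Loc {x | n < x.length ∧ x.length ≤ 3 * n + 2} (BadT n j) := locBadT n j hj

/-! ### Sets hard for `coNP` -/

theorem null_T (hc : Cp g S (bt α) Φ) (hα : Monotone α) (hα' : Tendsto α atTop atTop)
    (h : Tbl α Φ C E e) (M : Alg) :
    randomOracle {A : Oracle | ∃ P₀ : List Bool → List Bool,
      (∀ w, M.out (oracle Φ (join E C) A) w = some (P₀ w)) ∧
        IsOptimal (oracle Φ (join E C) A) (LT A) P₀} = 0 := by
  have hS : Scheme BadT (EP α Φ (join E C) M) (EP α Φ (join E C) M) Polynomial.X :=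
    { le_eval := fun m => by rw [Polynomial.eval_X]
      locErr := fun n j => by
        rw [Polynomial.eval_X]
        exact loc_EP hc _ M n j
      locBad := locBadT
      badLe := prob_BadT_le
      badGe := prob_BadT_ge
      goodMeas := fun n j => measurableSet_of_loc (finite_length_le _) (loc_EP hc _ M n j)
      key := ⟨1, key_T' hc _ M⟩ }
  refine hS.null ?_ ?_
  · rintro A ⟨P₀, hM, hP, -⟩ n j hbad ⟨u, -, hu⟩
    rw [hM u, Option.some.injEq] at hu
    have h1 : code n j ∈ LT A := by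
      rw [← hu, ← hP.2]
      exact ⟨u, rfl⟩
    exact code_mem_LT.1 h1 hbad
  · rintro t L A ⟨P₀, hM, hP, hQ⟩ hgood
    have hfp := isFP_axF h A (.inl M) t L
    set v := vv (BadI (.inl M)) (ErrI α Φ C E (.inl M)) t L with hv
    have hvT : ∀ i, v (Ts t i) = lev BadT (EP α Φ (join E C) M) t L (Ts t) i := fun i => vv_Ts i
    have hax : ∀ x : List Bool, axF v x ∈ LT A := by
      intro x
      unfold axF
      split_ifs with h0
      · exact nil_mem_LT A
      · obtain ⟨i, hi⟩ := vv_ne.1 h0
        rw [hi, hvT, code_mem_LT]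
        exact hgood i
    obtain ⟨q, hq⟩ := hQ _ (addAx' hP hfp hax)
    have h1 := le_lam hα hα' ((qb M + Polynomial.C 32 * M.p).comp
      (q.comp (Polynomial.X + 1)))
    filter_upwards [(tendsto_Ts t).eventually h1] with i hi
    obtain ⟨w, hw, hwl⟩ := hq (true :: List.replicate (Ts t i) true)
    have hne : v (Ts t i) ≠ 0 := vv_ne.2 ⟨i, rfl⟩
    rw [addSys_true] at hw
    unfold axF at hw
    rw [List.length_replicate, if_neg hne, hvT] at hw
    rw [List.length_cons, List.length_replicate] at hwl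
    simp only [Polynomial.eval_comp, Polynomial.eval_add, Polynomial.eval_mul,
      Polynomial.eval_C, Polynomial.eval_X, Polynomial.eval_one] at hi
    have h2 := eval_mono (qb M) hwl
    have h3 := eval_mono M.p hwl
    have h4 := lam_le α (Ts t i)
    refine ⟨w, ⟨?_, ?_⟩, by rw [hM w, hw]⟩
    · show (qb M).eval w.length ≤ lam α (Ts t i)
      omega
    · show 32 * M.p.eval w.length ≤ 2 ^ (Ts t i)
      omega

theorem not_optimal (hc : Cp g S (bt α) Φ) (hα : Monotone α) (hα' : Tendsto α atTop atTop)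
    (h : Tbl α Φ C E e) : ∀ᵐ A ∂randomOracle, ∀ L, CoNPHardRel (oracle Φ (join E C) A) L →
      ¬ ∃ P, IsOptimal (oracle Φ (join E C) A) L P := by
  have h1 : ∀ M : Alg, ∀ᵐ A ∂randomOracle, A ∉ {A : Oracle | ∃ P₀ : List Bool → List Bool,
      (∀ w, M.out (oracle Φ (join E C) A) w = some (P₀ w)) ∧
        IsOptimal (oracle Φ (join E C) A) (LT A) P₀} := fun M =>
    measure_eq_zero_iff_ae_notMem.1 (null_T hc hα hα' h M)
  filter_upwards [ae_all_iff.2 h1] with A hA L hL
  rintro ⟨P, hP⟩
  have h2 : IsCoNP (oracle Φ (join E C) A) (LT A) :=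
    isNP_lift [false, false] (fun x => O_pre (join E C) A x) (isCoNP_LT A)
  obtain ⟨P₀, hP₀⟩ := hP.transfer (hL _ h2) ⟨[], nil_mem_LT A⟩
  obtain ⟨M, hM⟩ := hP₀.1.1
  exact hA M ⟨P₀, hM, hP₀⟩

theorem isOptimal_of_isPOptimal {A : Oracle} {L : Set (List Bool)} {P : List Bool → List Bool}
    (h : IsPOptimal A L P) : IsOptimal A L P := by
  refine ⟨h.1, fun Q hQ => ?_⟩
  obtain ⟨f, hf, hPQ⟩ := h.2 Q hQ
  obtain ⟨b, hb⟩ := IsFP.length_le hf
  exact ⟨b, fun w => ⟨f w, hPQ w, hb w⟩⟩

/-! ### Sets hard for `NP` -/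

theorem null_S (hc : Cp g S (bt α) Φ) (hα : Monotone α) (hα' : Tendsto α atTop atTop)
    (h : Tbl α Φ C E e) (M : Alg) :
    randomOracle {A : Oracle | ∃ P₀ : List Bool → List Bool,
      (∀ w, M.out (oracle Φ (join E C) A) w = some (P₀ w)) ∧
        IsPOptimal (oracle Φ (join E C) A) (LS A) P₀} = 0 := by
  obtain ⟨a, ha⟩ := exists_surjective_nat Alg
  choose P hP using fun l => hkey_S' (α := α) hc (join E C) M (a l)
  obtain ⟨F, hF1, hF2, hF3⟩ := key_union' hα hα' (E := EP α Φ (join E C) M)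
    (G := fun l n j => GS Φ (join E C) M (a l) n j) (P := P)
    (fun n j => ⟨_, loc_EP hc _ M n j⟩) (fun l n j => loc_GS hc _ M (a l) n j)
    (fun l n j => hP l n j)
  have hS : Scheme BadS (EP α Φ (join E C) M)
      (fun n j => {A : Oracle | ∃ l ∈ F n, A ∈ GS Φ (join E C) M (a l) n j}) Polynomial.X :=
    { le_eval := fun m => by rw [Polynomial.eval_X]
      locErr := fun n j => by
        rw [Polynomial.eval_X]
        exact loc_EP hc _ M n j
      locBad := locBadS
      badLe := prob_BadS_le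
      badGe := prob_BadS_ge
      goodMeas := hF2
      key := ⟨1, hF3⟩ }
  refine hS.null ?_ ?_
  · rintro A ⟨P₀, hM, hP, -⟩ n j hbad ⟨u, -, hu⟩
    rw [hM u, Option.some.injEq] at hu
    have h1 : code n j ∈ LS A := by
      rw [← hu, ← hP.2]
      exact ⟨u, rfl⟩
    exact code_mem_LS.1 h1 hbad
  · rintro t L A ⟨P₀, hM, hP, hQ⟩ hgood
    have hfp := isFP_axF h A (.inr (.inl M)) t L
    set v := vv (BadI (.inr (.inl M))) (ErrI α Φ C E (.inr (.inl M))) t L with hv
    have hvT : ∀ i, v (Ts t i) = lev BadS (EP α Φ (join E C) M) t L (Ts t) i := fun i => vv_Ts i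
    have hax : ∀ x : List Bool, axF v x ∈ LS A := by
      intro x
      unfold axF
      split_ifs with h0
      · exact nil_mem_LS A
      · obtain ⟨i, hi⟩ := vv_ne.1 h0
        rw [hi, hvT, code_mem_LS]
        exact hgood i
    obtain ⟨h₀, ⟨f, hf⟩, hsim⟩ := hQ _ (addAx' hP hfp hax)
    obtain ⟨l, rfl⟩ := ha f
    filter_upwards [(tendsto_Ts t).eventually (hF1 l)] with i hi
    refine ⟨l, hi, h₀ (true :: List.replicate (Ts t i) true), hf _, ?_⟩
    have h3 := hsim (true :: List.replicate (Ts t i) true)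
    have hne : v (Ts t i) ≠ 0 := vv_ne.2 ⟨i, rfl⟩
    rw [addSys_true] at h3
    unfold axF at h3
    rw [List.length_replicate, if_neg hne, hvT] at h3
    rw [hM, h3]

theorem not_pOptimal (hc : Cp g S (bt α) Φ) (hα : Monotone α) (hα' : Tendsto α atTop atTop)
    (h : Tbl α Φ C E e) : ∀ᵐ A ∂randomOracle, ∀ L, NPHardRel (oracle Φ (join E C) A) L →
      ¬ ∃ P, IsPOptimal (oracle Φ (join E C) A) L P := by
  have h1 : ∀ M : Alg, ∀ᵐ A ∂randomOracle, A ∉ {A : Oracle | ∃ P₀ : List Bool → List Bool,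
      (∀ w, M.out (oracle Φ (join E C) A) w = some (P₀ w)) ∧
        IsPOptimal (oracle Φ (join E C) A) (LS A) P₀} := fun M =>
    measure_eq_zero_iff_ae_notMem.1 (null_S hc hα hα' h M)
  filter_upwards [ae_all_iff.2 h1] with A hA L hL
  rintro ⟨P, hP⟩
  have h2 : IsNP (oracle Φ (join E C) A) (LS A) :=
    isNP_lift [false, false] (fun x => O_pre (join E C) A x) (isNP_LS A)
  obtain ⟨P₀, hP₀⟩ := hP.transfer (hL _ h2) ⟨[], nil_mem_LS A⟩
  obtain ⟨M, hM⟩ := hP₀.1.1
  exact hA M ⟨P₀, hM, hP₀⟩

/-! ### Search problems -/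

/-- whether `N` is in the schedule -/
def gg (v : ℕ → ℕ) (N : ℕ) : Bool := decide (v N ≠ 0)

/-- the test of the verifier: input and candidate, the level in unary, the answers -/
def tG (p : (List Bool × List Bool) × (List Bool × List Bool)) : Bool :=
  decide (p.2.1 = []) || (decide (lvl p.1.2 < p.2.1.length) &&
    (decide ((p.1.2.drop (lvl p.1.2 + 1)).length = p.1.1.length) && p.2.2.all id))

theorem p_tG : Poly tG := by
  have h1 : Poly (fun p : (List Bool × List Bool) × (List Bool × List Bool) => p.1.1) :=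
    Poly.fst (Poly.fst Poly.id)
  have h2 : Poly (fun p : (List Bool × List Bool) × (List Bool × List Bool) => p.1.2) :=
    Poly.snd (Poly.fst Poly.id)
  have h3 : Poly (fun p : (List Bool × List Bool) × (List Bool × List Bool) => p.2.1) :=
    Poly.fst (Poly.snd Poly.id)
  have h4 : Poly (fun p : (List Bool × List Bool) × (List Bool × List Bool) => p.2.2) :=
    Poly.snd (Poly.snd Poly.id)
  exact Poly.or (Poly.decide_eq h3 (NPC.Poly.const []))
    (Poly.and (Poly.decide_lt (u_lvl h2).toPoly (UPoly.length h3).toPoly)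
      (Poly.and (Poly.decide_eq (Poly.length (p_drop h2 (UPoly.add (u_lvl h2)
        (UPoly.const 1)))) (Poly.length h1)) (p_all_id h4)))

theorem isTFNP_RG (h : Tbl α Φ C E e) {A : Oracle} {i : Ev} {t : ℕ} {L : List (List Bool)}
    {v : ℕ → ℕ} (hv : v = vv (BadI i) (ErrI α Φ C E i) t L)
    (hA : ∀ N, v N ≠ 0 → A ∉ BadS N (v N)) :
    IsTFNP (oracle Φ (join E C) A) (RF A v (gg v)) := by
  set B := oracle Φ (join E C) A with hB
  have hfp := isFP_levels (B := B) (E := E) [false, true, false]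
    (fun y => O_tab A E y) (e i t L) (v := vv (BadI i) (ErrI α Φ C E i) t L) vv_le
    (fun l N => h i t L l N) (m := fun y => (unpair y).1.length)
    (UPoly.length (Poly.fst poly_unpair))
    (Q := fun y => (qF (unpair y)).map (fun q => [false, false] ++ q)) (by
      refine p_map_append _ ?_
      have h2 : Poly (fun y : List Bool => (unpair y).2) := Poly.snd poly_unpair
      exact p_asks (UPoly.length (Poly.fst poly_unpair)) (u_lvl h2)
        (p_drop h2 (UPoly.add (u_lvl h2) (UPoly.const 1))))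
    (H := fun p => [tG (unpair p.1, p.2)]) (Poly.cons (p_tG.comp (Poly.pair
      (poly_unpair.comp (Poly.fst Poly.id)) (Poly.snd Poly.id))) (NPC.Poly.const []))
  rw [← hv] at hfp
  refine ⟨⟨_, 2 * Polynomial.X + 1, hfp, ?_⟩, ?_⟩
  · intro x z
    have hans : ((qF (x, z)).map (fun q => [false, false] ++ q)).map B = (qF (x, z)).map A := by
      rw [List.map_map]
      rfl
    unfold RF tG gg
    simp only [unpair_pairBits]
    rw [hans]
    unfold qF
    simp only [List.cons.injEq, and_true, Polynomial.eval_add,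
      Polynomial.eval_mul, Polynomial.eval_ofNat, Polynomial.eval_X, Polynomial.eval_one,
      Bool.or_eq_true, Bool.and_eq_true, decide_eq_true_eq, asks_all, List.length_replicate,
      List.replicate_eq_nil_iff]
    refine and_congr_right fun _ => ?_
    constructor
    · intro h
      by_cases hgx : v x.length = 0
      · exact Or.inl hgx
      · exact Or.inr (h hgx)
    · rintro (h | h) hgx
      · exact absurd h hgx
      · exact h
  · intro x
    by_cases hgx : v x.length = 0
    · exact ⟨[], by simp, fun h => by simp [gg, hgx] at h⟩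
    · have h1 := hA _ hgx
      unfold BadS blkS at h1
      rw [not_mem_noHit] at h1
      obtain ⟨⟨c, w⟩, hκ, hh⟩ := h1
      rw [mem_cands, Finset.mem_range] at hκ
      obtain ⟨hc, hw⟩ := hκ
      simp only at hc hw
      have h2 : v x.length ≤ x.length := by rw [hv]; exact vv_le _
      refine ⟨candStr c w, ?_, fun _ => ?_⟩
      · rw [length_candStr]
        omega
      · rw [lvl_candStr, drop_candStr]
        exact ⟨hc, hw, hh⟩

theorem null_F (hc : Cp g S (bt α) Φ) (hα : Monotone α) (hα' : Tendsto α atTop atTop)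
    (h : Tbl α Φ C E e) (V : Alg) (p : Polynomial ℕ) :
    randomOracle {A : Oracle | ∃ (R : List Bool → List Bool → Prop)
      (V₀ : List Bool → List Bool),
      (∀ z, V.out (oracle Φ (join E C) A) z = some (V₀ z)) ∧
      (∀ x y, R x y ↔ y.length ≤ p.eval x.length ∧ V₀ (pairBits x y) = [true]) ∧
      (∀ x, ∃ y, R x y) ∧ ∀ R', IsTFNP (oracle Φ (join E C) A) R' →
        RedSearch (oracle Φ (join E C) A) R' R} = 0 := by
  obtain ⟨a, ha⟩ := exists_surjective_nat (Alg × Alg)
  choose P hP using fun l => hkey_F' (α := α) hc (join E C) V p (a l)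
  obtain ⟨F, hF1, hF2, hF3⟩ := key_union' hα hα' (E := fun n _ => EF α Φ (join E C) V p n)
    (G := fun l n j => GF Φ (join E C) V p (a l) n j) (P := P)
    (fun n _ => ⟨_, loc_EF hc _ V p n⟩) (fun l n j => loc_GF hc _ V p (a l) n j)
    (fun l n j => hP l n j)
  have hS : Scheme BadS (fun n _ => EF α Φ (join E C) V p n)
      (fun n j => {A : Oracle | ∃ l ∈ F n, A ∈ GF Φ (join E C) V p (a l) n j})
      Polynomial.X :=
    { le_eval := fun m => by rw [Polynomial.eval_X]
      locErr := fun n j => by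
        rw [Polynomial.eval_X]
        exact loc_EF hc _ V p n
      locBad := locBadS
      badLe := prob_BadS_le
      badGe := prob_BadS_ge
      goodMeas := hF2
      key := ⟨1, hF3⟩ }
  refine hS.null ?_ ?_
  · rintro A ⟨R, V₀, hV, hRV, htot, -⟩ n j - ⟨x, hx, hall⟩
    obtain ⟨y, hy⟩ := htot x
    rw [hRV] at hy
    apply hall y hy.1
    rw [hV, hy.2]
  · rintro t L A ⟨R, V₀, hV, hRV, htot, hcomp⟩ hgood
    set i₀ : Ev := .inr (.inr (V, p)) with hi₀
    set v := vv (BadI i₀) (ErrI α Φ C E i₀) t L with hv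
    have hvT : ∀ i, v (Ts t i) = lev BadS (fun n _ => EF α Φ (join E C) V p n) t L (Ts t) i :=
      fun i => vv_Ts i
    have hA : ∀ N, v N ≠ 0 → A ∉ BadS N (v N) := by
      intro N hN
      obtain ⟨i, rfl⟩ := vv_ne.1 hN
      rw [hvT]
      exact hgood i
    obtain ⟨F₀, G₀, ⟨M1, hM1⟩, ⟨M2, hM2⟩, hred⟩ := hcomp _ (isTFNP_RG h hv hA)
    obtain ⟨l, hl⟩ := ha (M1, M2)
    filter_upwards [(tendsto_Ts t).eventually (hF1 l)] with i hi
    refine ⟨l, hi, ?_⟩
    rw [hl]
    refine ⟨F₀ (List.replicate (Ts t i) true), hM1 _, fun y hy hVy => ?_⟩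
    rw [hV, Option.some.injEq] at hVy
    have h3 := hred (List.replicate (Ts t i) true) y ((hRV _ _).2 ⟨hy, hVy⟩)
    obtain ⟨-, h4⟩ := h3
    rw [List.length_replicate] at h4
    have hne : v (Ts t i) ≠ 0 := vv_ne.2 ⟨i, rfl⟩
    obtain ⟨h5, h6, h7⟩ := h4 (decide_eq_true hne)
    rw [hvT] at h5
    have h8 : t + 4 + i ≤ Ts t i := Tt_ge Polynomial.X t i
    refine ⟨_, _, h5, h6, ?_, h7⟩
    rw [← candStr_of_drop _ (by rw [h6]; omega)]
    exact hM2 _

theorem no_complete (hc : Cp g S (bt α) Φ) (hα : Monotone α) (hα' : Tendsto α atTop atTop)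
    (h : Tbl α Φ C E e) : ∀ᵐ A ∂randomOracle,
      ¬ ∃ R, IsTFNP (oracle Φ (join E C) A) R ∧
        ∀ R', IsTFNP (oracle Φ (join E C) A) R' → RedSearch (oracle Φ (join E C) A) R' R := by
  have h1 : ∀ q : Alg × Polynomial ℕ, ∀ᵐ A ∂randomOracle,
      A ∉ {A : Oracle | ∃ (R : List Bool → List Bool → Prop) (V₀ : List Bool → List Bool),
      (∀ z, q.1.out (oracle Φ (join E C) A) z = some (V₀ z)) ∧
      (∀ x y, R x y ↔ y.length ≤ q.2.eval x.length ∧ V₀ (pairBits x y) = [true]) ∧
      (∀ x, ∃ y, R x y) ∧ ∀ R', IsTFNP (oracle Φ (join E C) A) R' →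
        RedSearch (oracle Φ (join E C) A) R' R} := fun q =>
    measure_eq_zero_iff_ae_notMem.1 (null_F hc hα hα' h q.1 q.2)
  filter_upwards [ae_all_iff.2 h1] with A hA
  rintro ⟨R, ⟨⟨V₀, p, ⟨V, hV⟩, hRV⟩, htot⟩, hcomp⟩
  exact hA (V, p) ⟨R, V₀, hV, hRV, htot, hcomp⟩

end Pool.Agent.J6H49.OP
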