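import Pool.Agent.J6H49.OP.Defs
import Pool.Agent.J6H49.OP.Fin
import Pool.Agent.J6H49.EE.Time

/-!
# Space in nearly the same time, at three levels
-/

set_option autoImplicit false

namespace Pool.Agent.J6H49.OP

open Filter Pool.Agent.NPC Pool.Agent.H628R3.RO Pool.Agent.J6H54.RO
open Pool.Agent.H622R2 (poly_pairBits)
open Pool.Agent.H620R2.Gauge (IsPSPACE)
open Pool.Agent.H622R2.Exp.A4 (poly_two_pow)
open Pool.Agent.TH678.GC (join)
open Pool.Agent.TH678.RS (bt)
open Pool.Agent.Y626.WX (Cp cod emb phi_emb code_pspace time_bound qc poly_qc)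

/-- the slower function -/
def slow2 (β : ℕ → ℕ) (m : ℕ) : ℕ := β (Nat.sqrt (Nat.log 2 (Nat.log 2 m)))

theorem slow2_mono {β : ℕ → ℕ} (hβ : Monotone β) : Monotone (slow2 β) := fun _ _ h =>
  hβ (Nat.sqrt_le_sqrt (Nat.log_mono_right (Nat.log_mono_right h)))

theorem slow2_tendsto {β : ℕ → ℕ} (hβ' : Tendsto β atTop atTop) :
    Tendsto (slow2 β) atTop atTop := by
  refine hβ'.comp ?_
  rw [tendsto_atTop]
  intro b
  filter_upwards [eventually_ge_atTop (2 ^ 2 ^ (b * b))] with m hm
  rw [Nat.le_sqrt]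
  exact Nat.le_log_of_pow_le (by norm_num) (Nat.le_log_of_pow_le (by norm_num) hm)

theorem slow2_bound {β : ℕ → ℕ} (hβ : Monotone β) (c : ℕ) : ∃ K : ℕ, ∀ n M : ℕ,
    M ≤ (2 ^ 2 ^ (n + 1)) ^ c → slow2 β M + 1 ≤ K * (β n + 1) := by
  refine ⟨β (2 * c + 3) + 1, fun n M hM => ?_⟩
  unfold slow2
  have h1 : Nat.log 2 M ≤ 2 ^ (n + 1 + c) := by
    refine (Nat.log_mono_right hM).trans ?_
    rw [← pow_mul, Nat.log_pow (by norm_num), pow_add 2 (n + 1) c]
    exact Nat.mul_le_mul_left _ Nat.lt_two_pow_self.le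
  have h2 : Nat.log 2 (Nat.log 2 M) ≤ n + 1 + c := by
    refine (Nat.log_mono_right h1).trans ?_
    rw [Nat.log_pow (by norm_num)]
  by_cases h : c + 2 ≤ n
  · have h3 : Nat.sqrt (Nat.log 2 (Nat.log 2 M)) ≤ n := by
      calc Nat.sqrt (Nat.log 2 (Nat.log 2 M)) ≤ Nat.sqrt (n * n) :=
            Nat.sqrt_le_sqrt (by nlinarith)
        _ = n := Nat.sqrt_eq n
    have h4 := hβ h3
    nlinarith
  · have h3 : Nat.sqrt (Nat.log 2 (Nat.log 2 M)) ≤ 2 * c + 3 :=
      (Nat.sqrt_le_self _).trans (h2.trans (by omega))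
    have h4 := hβ h3
    nlinarith

variable {g : ℕ → Pool.Agent.H620R2.Gauge.SAlg × Polynomial ℕ} {S : ℕ → Polynomial ℕ}
  {Φ : Oracle → Oracle} {β : ℕ → ℕ}

/-- the padded string, made from a longer padding -/
def repadN (N : ℕ → ℕ) (c : ℕ) (z : List Bool) : List Bool :=
  pairBits (unpair z).1 (List.replicate (min (N (unpair z).1.length ^ c) z.length) true)

theorem time_space (hg : Function.Surjective g) (hβ : Monotone β)
    (hc : Cp g S (bt (slow2 β)) Φ) (A : Oracle) {N : ℕ → ℕ} (hN1 : ∀ n, n + 2 ≤ N n)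
    (hN2 : ∀ n, N n ≤ 2 ^ 2 ^ (n + 1))
    (hN3 : ∀ c, UPoly (fun z : List Bool => min (N (unpair z).1.length ^ c) z.length))
    {L : Set (List Bool)} (hL : InSpace N (join A (cod Φ A)) L) :
    InTime N β (join A (cod Φ A)) L := by
  obtain ⟨c, L', hL', hx⟩ := hL
  have hO := phi_emb hc A
  rw [← hO] at hL' ⊢
  obtain ⟨e, he⟩ := code_pspace hg hc _ hL'
  obtain ⟨C, hC⟩ := time_bound (slow2_mono hβ) (S e)
  obtain ⟨K, hK⟩ := slow2_bound hβ (c + 3)
  have hp : Poly (repadN N c) := poly_pairBits (Poly.fst poly_unpair) (p_replicate (hN3 c) true)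
  refine ⟨(c + 3) * (C * K) + c, fun z => [Φ (emb A) (qc e (unpair z).2 (repadN N c z))], ?_,
    fun x => ?_⟩
  · exact IsFP.tt (Q := fun z => [qc e (unpair z).2 (repadN N c z)]) (H := fun p => p.2)
      (Poly.cons (poly_qc e (Poly.snd poly_unpair) hp) (NPC.Poly.const [])) (Poly.snd Poly.id)
  · beta_reduce
    set n := x.length with hn
    have hNn := hN1 n
    set m := N n ^ (((c + 3) * (C * K) + c) * (β n + 1)) with hm
    have h1 : N n ^ c ≤ m := by
      rw [hm]
      apply Nat.pow_le_pow_right (by omega)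
      calc c ≤ (c + 3) * (C * K) + c := Nat.le_add_left _ _
        _ ≤ ((c + 3) * (C * K) + c) * (β n + 1) := Nat.le_mul_of_pos_right _ (by omega)
    have hrep : repadN N c (pairBits x (List.replicate m true)) =
        pairBits x (List.replicate (N n ^ c) true) := by
      unfold repadN
      rw [unpair_pairBits]
      show pairBits x (List.replicate (min (N n ^ c) _) true) = _
      rw [min_eq_left]
      rw [length_pairBits, List.length_replicate]
      omega
    rw [hrep, unpair_pairBits]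
    dsimp only
    rw [List.cons.injEq, and_iff_left rfl, hx x]
    refine (he _ _ ?_).symm
    rw [List.length_replicate]
    refine (hC _).trans ?_
    set y := pairBits x (List.replicate (N n ^ c) true) with hy
    have h2 : y.length + 2 ≤ N n ^ (c + 3) := by
      rw [hy, length_pairBits, List.length_replicate, ← hn]
      have e1 : N n ^ (c + 3) = N n ^ c * (N n * (N n * N n)) := by ring
      rw [e1]
      have h3 : 1 ≤ N n ^ c := Nat.one_le_pow _ _ (by omega)
      set a := N n ^ c with ha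
      have h4 : 2 ≤ N n := by omega
      have h5 : 2 * N n ≤ N n * N n := Nat.mul_le_mul_right _ h4
      have h6 : 2 * (N n * N n) ≤ N n * (N n * N n) := Nat.mul_le_mul_right _ h4
      have h7 : N n * (N n * N n) + (N n * (N n * N n)) * (a - 1) =
          a * (N n * (N n * N n)) := by
        obtain ⟨b, hb⟩ : ∃ b, a = b + 1 := ⟨a - 1, by omega⟩
        rw [hb]
        simp only [Nat.add_sub_cancel]
        ring
      have h8 : a - 1 ≤ (N n * (N n * N n)) * (a - 1) := Nat.le_mul_of_pos_left _ (by positivity)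
      have h9 : 2 * n + 4 ≤ 2 * N n := by omega
      nlinarith
    have h3 : slow2 β y.length + 1 ≤ K * (β n + 1) := by
      refine hK n y.length ?_
      calc y.length ≤ N n ^ (c + 3) := by omega
        _ ≤ _ := Nat.pow_le_pow_left (hN2 n) _
    calc (y.length + 2) ^ (C * (slow2 β y.length + 1))
        ≤ (N n ^ (c + 3)) ^ (C * (slow2 β y.length + 1)) := Nat.pow_le_pow_left h2 _
      _ ≤ (N n ^ (c + 3)) ^ (C * (K * (β n + 1))) :=
          Nat.pow_le_pow_right (Nat.pow_pos (by omega)) (Nat.mul_le_mul_left _ h3)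
      _ = N n ^ ((c + 3) * (C * K) * (β n + 1)) := by
          rw [← pow_mul]
          congr 1
          ring
      _ ≤ m := by
          rw [hm]
          apply Nat.pow_le_pow_right (by omega)
          exact Nat.mul_le_mul_right _ (Nat.le_add_right _ _)

theorem nearly (hg : Function.Surjective g) (hβ : Monotone β)
    (hc : Cp g S (bt (slow2 β)) Φ) (A : Oracle) : NearlyCollapsed β (join A (cod Φ A)) := by
  have hlen : UPoly (fun z : List Bool => (unpair z).1.length) :=
    UPoly.length (Poly.fst poly_unpair)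
  have hz : UPoly (fun z : List Bool => z.length) := UPoly.length Poly.id
  refine ⟨fun L hL => time_space hg hβ hc A (fun n => le_rfl) (fun n => ?_) (fun c => ?_) hL,
    fun L hL => time_space hg hβ hc A (fun n => ?_) (fun n => ?_) (fun c => ?_) hL,
    fun L hL => time_space hg hβ hc A (fun n => ?_) (fun n => ?_) (fun c => ?_) hL⟩
  · have h1 : n + 1 < 2 ^ (n + 1) := Nat.lt_two_pow_self
    have h2 : 2 ^ (n + 1) < 2 ^ 2 ^ (n + 1) := Nat.lt_two_pow_self
    show n + 2 ≤ 2 ^ 2 ^ (n + 1)
    omega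
  · have h := UPoly.eval hlen ((Polynomial.X + Polynomial.C 2) ^ c)
    simp only [Polynomial.eval_pow, Polynomial.eval_add, Polynomial.eval_X,
      Polynomial.eval_C] at h
    exact u_min h hz
  · have h1 : n + 1 < 2 ^ (n + 1) := Nat.lt_two_pow_self
    show n + 2 ≤ 2 ^ (n + 1)
    omega
  · have h1 : n + 1 < 2 ^ (n + 1) := Nat.lt_two_pow_self
    exact Nat.pow_le_pow_right (by norm_num) h1.le
  · have h4 : UPoly (fun y : List Bool => c * ((unpair y).1.length + 1)) := by
      have h := UPoly.eval hlen (Polynomial.C c * (Polynomial.X + 1))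
      simpa using h
    refine u_congr (UPoly.of_le (Poly.min (poly_two_pow h4) (Poly.length Poly.id)) hz
      fun y => min_le_right _ _) fun y => ?_
    show min (2 ^ (c * ((unpair y).1.length + 1))) y.length =
      min ((2 ^ ((unpair y).1.length + 1)) ^ c) y.length
    rw [← pow_mul, mul_comm c]
  · show n + 2 ≤ 2 ^ 2 ^ n
    have h1 : n < 2 ^ n := Nat.lt_two_pow_self
    rcases Nat.eq_zero_or_pos n with rfl | h0
    · norm_num
    · have h2 : 2 ^ n + 1 ≤ 2 ^ 2 ^ n := Nat.lt_two_pow_self
      omega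
  · exact Nat.pow_le_pow_right (by norm_num) (Nat.pow_le_pow_right (by norm_num) (by omega))
  · have h5 := u_cap_pow hlen hz
    have h6 : UPoly (fun y : List Bool => c * min (2 ^ ((unpair y).1.length)) (y.length + 1)) :=
      UPoly.mul (UPoly.const c) h5
    have h7 := u_cap_pow h6 hz
    refine u_congr (u_min h7 hz) fun y => ?_
    set n := (unpair y).1.length with hn
    set l := y.length with hl
    show min (min (2 ^ (c * min (2 ^ n) (l + 1))) (l + 1)) l = min ((2 ^ 2 ^ n) ^ c) l
    rw [← pow_mul, mul_comm (2 ^ n) c]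
    rcases Nat.eq_zero_or_pos c with rfl | hc0
    · simp only [zero_mul, pow_zero]
      omega
    · rcases le_total (2 ^ n) (l + 1) with h | h
      · rw [min_eq_left h]
        omega
      · rw [min_eq_right h]
        have h8 : l + 1 ≤ c * (l + 1) := Nat.le_mul_of_pos_left _ hc0
        have h9 : c * (l + 1) < 2 ^ (c * (l + 1)) := Nat.lt_two_pow_self
        have h10 : 2 ^ (c * (l + 1)) ≤ 2 ^ (c * 2 ^ n) :=
          Nat.pow_le_pow_right (by norm_num) (Nat.mul_le_mul_left _ h)
        omega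

end Pool.Agent.J6H49.OP
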