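import Pool.Agent.J6H49.PHC.Coded
import Pool.Agent.J6H54.RO.FinF

/-!
# Oracle algorithms with late information: planting far above does not matter
-/

set_option autoImplicit false

namespace Pool.Agent.J6H49.OP

open MeasureTheory Filter Pool.Agent.NPC Pool.Agent.H628R3.RO Pool.Agent.J6H54.RO
open Pool.Agent.TH678.GC (join)
open Pool.Agent.TH678.RS (bt)
open Pool.Agent.Y626.WX (Cp cod agree_emb loc_emb)
open Pool.Agent.J6H49.PHC (oracle far join_agree)

/-- the codes of length at most `T` do not depend on the strings of length at least `n` -/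
def sf (α : ℕ → ℕ) (n T : ℕ) : Prop := ∀ s, n ≤ s → T < s ^ (bt α s + 1)

open Classical in
/-- the largest such length (at most `2 ^ n`) -/
noncomputable def lam (α : ℕ → ℕ) (n : ℕ) : ℕ := Nat.findGreatest (sf α n) (2 ^ n)

theorem lam_le (α : ℕ → ℕ) (n : ℕ) : lam α n ≤ 2 ^ n := by
  classical
  exact Nat.findGreatest_le _

theorem sf_lam {α : ℕ → ℕ} {n : ℕ} (hn : 1 ≤ n) : sf α n (lam α n) := by
  classical
  refine Nat.findGreatest_spec (P := sf α n) (m := 0) (Nat.zero_le _) ?_
  intro s hs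
  exact Nat.pow_pos (by omega)

theorem le_lam {α : ℕ → ℕ} (hα : Monotone α) (hα' : Tendsto α atTop atTop) (P : Polynomial ℕ) :
    ∀ᶠ n : ℕ in atTop, P.eval n ≤ lam α n := by
  classical
  have hc : ∃ c : ℕ, ∀ᶠ N : ℕ in atTop, P.eval N ≤ N ^ c := by
    refine ⟨P.natDegree + 1, ?_⟩
    filter_upwards [eventually_ge_atTop (max 1 (P.eval 1))] with N hN
    have h1 : 1 ≤ N := (le_max_left _ _).trans hN
    have h2 : P.eval 1 ≤ N := (le_max_right _ _).trans hN
    refine (Pool.Agent.J6H7.RO.eval_le_pow _ h1).trans ?_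
    rw [pow_succ, mul_comm]
    exact Nat.mul_le_mul_left _ h2
  obtain ⟨c, hc⟩ := hc
  obtain ⟨N, hN⟩ := poly_le_two_pow P
  filter_upwards [hc, far hα hα' c, eventually_ge_atTop N] with n h1 h2 h3
  refine Nat.le_findGreatest ?_ fun s hs => h1.trans_lt (h2 s hs)
  have := hN n h3
  omega

variable {α : ℕ → ℕ} {g : ℕ → Pool.Agent.H620R2.Gauge.SAlg × Polynomial ℕ}
  {S : ℕ → Polynomial ℕ} {Φ : Oracle → Oracle}

theorem O_pre (E₀ A : Oracle) (x : List Bool) :
    oracle Φ E₀ A ([false, false] ++ x) = A x := rfl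

theorem O_side (E₀ A : Oracle) (x : List Bool) :
    oracle Φ E₀ A ([false, true] ++ x) = E₀ x := rfl

theorem O_late (hc : Cp g S (bt α) Φ) {n : ℕ} (hn : 1 ≤ n) (E₀ : Oracle) {A A' : Oracle}
    (hA : ∀ u : List Bool, u.length ≤ n → A' u = A u) {q : List Bool}
    (hq : q.length ≤ lam α n) (hpre : ∀ x, q ≠ [false, false] ++ x) :
    oracle Φ E₀ A' q = oracle Φ E₀ A q := by
  have h1 := agree_emb hc (L := n) (T := lam α n) (sf_lam hn) (A := join A' E₀)
    (A' := join A E₀) (join_agree fun u hu => hA u (by omega)) q hq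
  show join (join A' E₀) (cod Φ (join A' E₀)) q = join (join A E₀) (cod Φ (join A E₀)) q
  rw [h1]
  match q with
  | [] => rfl
  | false :: [] => rfl
  | false :: false :: x => exact absurd rfl (hpre x)
  | false :: true :: x => rfl
  | true :: x => rfl

theorem join_agree' {A A' E₀ E₀' : Oracle} {ℓ : ℕ}
    (h : ∀ u : List Bool, u.length ≤ ℓ → A u = A' u)
    (h' : ∀ u : List Bool, u.length ≤ ℓ → E₀ u = E₀' u) :
    ∀ u : List Bool, u.length ≤ ℓ → join A E₀ u = join A' E₀' u := by
  intro u hu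
  match u with
  | [] => rfl
  | false :: z =>
    show A z = A' z
    exact h z (by rw [List.length_cons] at hu; omega)
  | true :: z =>
    show E₀ z = E₀' z
    exact h' z (by rw [List.length_cons] at hu; omega)

theorem O_loc (hc : Cp g S (bt α) Φ) {ℓ : ℕ} {E₀ E₀' A A' : Oracle}
    (hE : ∀ u : List Bool, u.length ≤ ℓ → E₀ u = E₀' u)
    (hA : ∀ u : List Bool, u.length ≤ ℓ → A u = A' u) {q : List Bool} (hq : q.length ≤ ℓ) :
    oracle Φ E₀ A q = oracle Φ E₀' A' q :=
  loc_emb hc (ℓ := ℓ) (join_agree' hA hE) q hq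

/-- the bound for the length of the questions -/
noncomputable def qb (M : Alg) : Polynomial ℕ := M.out_local.choose

theorem qb_spec (M : Alg) (A : Oracle) (x : List Bool) :
    ∃ Q : Finset (List Bool), Q.card ≤ M.p.eval x.length ∧
      (∀ q ∈ Q, q.length ≤ (qb M).eval x.length) ∧
      ∀ A' : Oracle, (∀ q ∈ Q, A' q = A q) → M.out A' x = M.out A x :=
  M.out_local.choose_spec A x

/-- The output depends on a few strings of the random oracle, apart from the short ones. -/
theorem out_stable (hc : Cp g S (bt α) Φ) (M : Alg) {n : ℕ} (hn : 1 ≤ n) (E₀ B : Oracle)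
    {u : List Bool} (hu : (qb M).eval u.length ≤ lam α n) :
    ∃ Q : Finset (List Bool), Q.card ≤ M.p.eval u.length ∧ ∀ B' : Oracle,
      (∀ x : List Bool, x.length ≤ n → B' x = B x) → (∀ x ∈ Q, B' x = B x) →
        M.out (oracle Φ E₀ B') u = M.out (oracle Φ E₀ B) u := by
  classical
  obtain ⟨Q, hQ1, hQ2, hQ3⟩ := qb_spec M (oracle Φ E₀ B) u
  refine ⟨Q.image (List.drop 2), Finset.card_image_le.trans hQ1, fun B' h1 h2 => ?_⟩
  refine hQ3 _ fun q hq => ?_
  by_cases hpre : ∃ x, q = [false, false] ++ x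
  · obtain ⟨x, rfl⟩ := hpre
    rw [O_pre, O_pre]
    exact h2 x (Finset.mem_image.2 ⟨_, hq, rfl⟩)
  · push Not at hpre
    exact O_late hc hn E₀ h1 ((hQ2 q hq).trans hu) hpre

/-- The output is local. -/
theorem out_loc (hc : Cp g S (bt α) Φ) (M : Alg) {ℓ : ℕ} {E₀ E₀' A A' : Oracle}
    (hE : ∀ u : List Bool, u.length ≤ ℓ → E₀ u = E₀' u)
    (hA : ∀ u : List Bool, u.length ≤ ℓ → A u = A' u) {u : List Bool}
    (hu : (qb M).eval u.length ≤ ℓ) :
    M.out (oracle Φ E₀ A) u = M.out (oracle Φ E₀' A') u := by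
  obtain ⟨Q, -, hQ2, hQ3⟩ := qb_spec M (oracle Φ E₀' A') u
  exact hQ3 _ fun q hq => O_loc hc hE hA ((hQ2 q hq).trans hu)

/-- Planting hits apart from a few candidates does not change the output. -/
theorem out_plant (hc : Cp g S (bt α) Φ) (M : Alg) {n m : ℕ} (hn : 1 ≤ n) (E₀ B : Oracle)
    {W : Finset Cand} (hW : ∀ x ∈ allSpots m W, n < x.length)
    {u : List Bool} (hu : (qb M).eval u.length ≤ lam α n) :
    ∃ T : Finset Cand, T.card ≤ M.p.eval u.length ∧ ∀ h ⊆ W, Disjoint h T →
      M.out (oracle Φ E₀ (plant (allSpots m h) B)) u = M.out (oracle Φ E₀ B) u := by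
  obtain ⟨Q, hQ1, hQ2⟩ := out_stable hc M hn E₀ B hu
  obtain ⟨T, hT1, hT2⟩ := touched m W Q
  refine ⟨T, hT1.trans hQ1, fun h hh hd => hQ2 _ (fun x hx => ?_) (hT2 h hh hd B)⟩
  unfold plant
  rw [if_neg]
  intro hx'
  have := hW x (allSpots_mono _ hh hx')
  omega

/-- local events remain local -/
theorem loc_pre (hc : Cp g S (bt α) Φ) (E₀ : Oracle) {r : ℕ} {Z : Set Oracle}
    (hZ : Loc {x | x.length ≤ r} Z) :
    Loc {x | x.length ≤ r} {A | oracle Φ E₀ A ∈ Z} := by
  intro A A' hA
  exact hZ _ _ fun x hx => O_loc hc (fun _ _ => rfl) (ℓ := r) (fun u hu => hA u hu) hx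

/-- An algorithm for the oracle `A` becomes an algorithm for an oracle containing `A`. -/
theorem isFP_lift {A B : Oracle} (w : List Bool) (h : ∀ x, B (w ++ x) = A x)
    {F : List Bool → List Bool} (hF : IsFP A F) : IsFP B F := by
  obtain ⟨M, hM⟩ := hF
  have hp : Poly (fun y : List Bool =>
      if (M.D y).head? = some false then false :: (w ++ (M.D y).tail) else M.D y) := by
    have h1 : Poly M.D := Pool.Agent.H622R2.poly_of_polyTime M.poly
    exact Poly.ite (Poly.decide_eq (Poly.head? h1) (NPC.Poly.const _))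
      (Poly.cons (NPC.Poly.const false) (Poly.append (NPC.Poly.const w) (Poly.tail h1))) h1
  refine ⟨⟨_, Pool.Agent.H622R2.polyTime_of_poly_list hp, M.p⟩, fun x => ?_⟩
  rw [← hM x]
  unfold Alg.out
  have key : ∀ (n : ℕ) (a : List Bool),
      Alg.run ⟨_, Pool.Agent.H622R2.polyTime_of_poly_list hp, M.p⟩ B x n a = M.run A x n a := by
    intro n
    induction n with
    | zero => intro a; rfl
    | succ n ih =>
      intro a
      rw [Alg.run, Alg.run]
      rcases hD : M.D (pairBits x a) with _ | ⟨c, q⟩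
      · simp [hD]
      · cases c with
        | true => simp [hD]
        | false =>
          simp only [hD, List.head?_cons, if_true, List.tail_cons]
          rw [ih, h]
  exact key _ _

theorem isNP_lift {A B : Oracle} (w : List Bool) (h : ∀ x, B (w ++ x) = A x)
    {L : Set (List Bool)} (hL : IsNP A L) : IsNP B L := by
  obtain ⟨V, p, hV, hx⟩ := hL
  exact ⟨V, p, isFP_lift w h hV, hx⟩

end Pool.Agent.J6H49.OP
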