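import Pool.Agent.H628R3.RO.Defs
import Pool.Agent.H620R2.Gauge.Defs

/-!
# Nearly collapsed oracles

Space and time classes, relative to an oracle, by padding. The padding of an input `x` consists of
a number of ones which depends on the length of `x` only.
-/

set_option autoImplicit false

namespace Pool.Agent.J6H49.OP

open Pool.Agent.NPC Pool.Agent.H628R3.RO
open Pool.Agent.H620R2.Gauge (IsPSPACE)

/-- The problem `L` is decided in space `N(n) ^ O(1)` relative to the oracle `B`: for some constant
`c`, the input `x`, padded with `N |x| ^ c` ones, is decided in polynomial space. -/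
def InSpace (N : ℕ → ℕ) (B : Oracle) (L : Set (List Bool)) : Prop :=
  ∃ (c : ℕ) (L' : Set (List Bool)), IsPSPACE B L' ∧
    ∀ x : List Bool, x ∈ L ↔ pairBits x (List.replicate (N x.length ^ c) true) ∈ L'

/-- The problem `L` is decided in (deterministic) time `N(n) ^ O(α n)` relative to the oracle `B`:
for some constant `c`, the input `x`, padded with `N |x| ^ (c * (α |x| + 1))` ones, is decided in
polynomial time. -/
def InTime (N α : ℕ → ℕ) (B : Oracle) (L : Set (List Bool)) : Prop :=
  ∃ (c : ℕ) (V : List Bool → List Bool), IsFP B V ∧ ∀ x : List Bool,
    x ∈ L ↔ V (pairBits x (List.replicate (N x.length ^ (c * (α x.length + 1))) true)) = [true]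

/-- The oracle `B` is nearly collapsed with the function `α`: relative to `B`,

* every problem in polynomial space is decided in time `n ^ O(α n)`,
* every problem in space `2 ^ O(n)` is decided in time `2 ^ O(n * α n)`,
* every problem in space `2 ^ O(2 ^ n)` is decided in time `2 ^ O(2 ^ n * α n)`.

For bounded `α` this would be `P = PSPACE`, with its consequences for the exponential classes. -/
structure NearlyCollapsed (α : ℕ → ℕ) (B : Oracle) : Prop where
  /-- polynomial space is nearly polynomial time -/
  poly : ∀ L, InSpace (fun n => n + 2) B L → InTime (fun n => n + 2) α B L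
  /-- exponential space with linear exponent is nearly exponential time with linear exponent -/
  exp : ∀ L, InSpace (fun n => 2 ^ (n + 1)) B L → InTime (fun n => 2 ^ (n + 1)) α B L
  /-- the same for double exponentials -/
  expexp : ∀ L, InSpace (fun n => 2 ^ 2 ^ n) B L → InTime (fun n => 2 ^ 2 ^ n) α B L

/-- The oracle `B` contains the oracle `C`: for some prefix `w`, the string `x` is in `C` if and only
if `w ++ x` is in `B`. -/
def Contains (B C : Oracle) : Prop := ∃ w : List Bool, ∀ x, B (w ++ x) = C x

end Pool.Agent.J6H49.OP
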