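import Pool.Agent.J6H49.OP.Tab

/-!
# The events and the key inequality, relative to oracles with late information
-/

set_option autoImplicit false

namespace Pool.Agent.J6H49.OP

open MeasureTheory Filter Pool.Agent.NPC Pool.Agent.H628R3.RO Pool.Agent.J6H54.RO
open Pool.Agent.TH678.RS (bt)
open Pool.Agent.Y626.WX (Cp)
open Pool.Agent.J6H49.PHC (oracle)

/-- The key inequality for statements that there is no hit, general form. -/
theorem key_T_gen {Z E : Set Oracle} {rZ rE : ℕ} {n j t : ℕ} {L : List (List Bool)}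
    (hZ : Loc {x | x.length ≤ rZ} Z) (hE : Loc {x | x.length ≤ rE} E) (hn : 1 ≤ n) (hj : j ≤ n)
    (ht : t < n)
    (hkey : ∀ B ∈ NoHit (n + j) (blkT n), B ∈ Z → ∃ T : Finset Cand, T.card ≤ 2 ^ n / 32 ∧
      ∀ h ⊆ blkT n, h.Nonempty → Disjoint h T → plant (allSpots (n + j) h) B ∈ E)
    (hchk : 4 * prob (cyl t L ∩ (BadT n j ∩ E)) < prob (cyl t L ∩ BadT n j)) :
    prob (cyl t L ∩ Z ∩ (BadT n j)ᶜ) ≤ 5 / 16 * prob (cyl t L) := by
  obtain ⟨R, hZ, hE, hτ, hR⟩ := exists_radius hZ hE n t L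
  set τ := cyl t L with hτdef
  set β := prob (BadT n j) with hβ
  have hcard := card_blkT n
  have hkt := key_taut (finite_length_le R) hZ hE hτ (blkT n) (m := n + j) (by omega)
    (2 ^ n / 32) (fun κ hκ i hi => by
      have hmem : pos κ.1 i κ.2 ∈ spotsT n j := mem_allSpots.2 ⟨κ, hκ, i, hi, rfl⟩
      have := length_le_spotsT hj _ hmem
      simp only [Set.mem_ofPred_eq]
      omega)
    (fun B h hh => plant_cyl ht (fun x hx =>
      lt_length_spotsT (n := n) (j := j) x (allSpots_mono _ hh hx)) B)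
    hkey
  rw [hcard] at hkt
  have hβ' : 1 - (1 - (1 / 2 : ℝ) ^ (n + j)) ^ (2 ^ n) = β := (prob_BadT n j).symm
  rw [hβ'] at hkt
  have hbad : (NoHit (n + j) (blkT n))ᶜ = BadT n j := rfl
  have hbad' : NoHit (n + j) (blkT n) = (BadT n j)ᶜ := by rw [← hbad, compl_compl]
  rw [hbad, hbad'] at hkt
  have hβpos : 0 < β := by
    obtain ⟨c, hc, hc'⟩ := prob_BadT_ge j
    exact hc.trans_le (hc' n (by omega))
  have hβge : (1 / 2 : ℝ) ^ (j + 1) ≤ β := by
    rw [hβ, prob_BadT]
    exact taut_ge n j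
  have hind : prob (τ ∩ BadT n j) = prob τ * β := by
    refine prob_inter_of_disjoint (finite_length_le t)
      (K' := (spotsT n j : Set (List Bool))) (spotsT n j).finite_toSet ?_ (loc_cyl t L)
      (loc_BadT n j)
    rw [Set.disjoint_left]
    intro x hx hx'
    have := lt_length_spotsT x hx'
    simp only [Set.mem_ofPred_eq] at hx
    omega
  rw [hind] at hchk
  have hτ0 : 0 ≤ prob τ := M2.prob_nonneg _
  have hE' : prob (E ∩ τ ∩ BadT n j) ≤ prob τ * β / 4 := by
    have : E ∩ τ ∩ BadT n j = τ ∩ (BadT n j ∩ E) := by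
      ext A
      simp only [Set.mem_inter_iff]
      tauto
    rw [this]
    linarith
  have ht' : ((2 ^ n / 32 : ℕ) : ℝ) * (1 / 2) ^ (n + j) ≤ β / 16 := by
    have h1 : ((2 ^ n / 32 : ℕ) : ℝ) ≤ 2 ^ n / 32 := by
      have := @Nat.cast_div_le ℝ _ _ _ (2 ^ n) 32
      push_cast at this
      exact this
    have h2 : (2 : ℝ) ^ n * (1 / 2) ^ (n + j) = (1 / 2) ^ j := by
      rw [pow_add, ← mul_assoc, ← mul_pow]
      norm_num
    have h3 : (1 / 2 : ℝ) ^ (j + 1) = (1 / 2) ^ j / 2 := by rw [pow_succ]; ring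
    calc ((2 ^ n / 32 : ℕ) : ℝ) * (1 / 2) ^ (n + j) ≤ 2 ^ n / 32 * (1 / 2) ^ (n + j) :=
          mul_le_mul_of_nonneg_right h1 (by positivity)
      _ = (1 / 2) ^ j / 32 := by rw [← h2]; ring
      _ ≤ β / 16 := by linarith
  have hq1 : (1 - (1 / 2 : ℝ) ^ (n + j)) ^ (2 ^ n) ≤ 1 :=
    pow_le_one₀ (by linarith [half_pow_le_one (n + j)])
      (by have : (0 : ℝ) < (1 / 2) ^ (n + j) := by positivity
          linarith)
  have hmain : prob (Z ∩ τ ∩ (BadT n j)ᶜ) * β ≤ (5 / 16 * prob τ) * β := by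
    refine hkt.trans ?_
    have h1 : 0 ≤ prob (E ∩ τ ∩ BadT n j) +
        ((2 ^ n / 32 : ℕ) : ℝ) * (1 / 2) ^ (n + j) * prob τ := by
      have := M2.prob_nonneg (E ∩ τ ∩ BadT n j)
      positivity
    refine (mul_le_of_le_one_right h1 hq1).trans ?_
    have h2 := mul_le_mul_of_nonneg_right ht' hτ0
    nlinarith
  have h1 := le_of_mul_le_mul_right hmain hβpos
  rwa [Set.inter_comm Z] at h1

section

variable (α : ℕ → ℕ) (Φ : Oracle → Oracle) (E₀ : Oracle)

/-- the input `u` of `M` is so short that at stage `n` no late information is seen -/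
def shp (M : Alg) (n : ℕ) (u : List Bool) : Prop :=
  (qb M).eval u.length ≤ lam α n ∧ 32 * M.p.eval u.length ≤ 2 ^ n

/-- the algorithm `M` has a short proof of the statement `code n j` -/
def EP (M : Alg) (n j : ℕ) : Set Oracle :=
  {A | ∃ u : List Bool, shp α M n u ∧ M.out (oracle Φ E₀ A) u = some (code n j)}

/-- the search problem given by `V` and `p` is not total, for a short input -/
def EF (V : Alg) (p : Polynomial ℕ) (n : ℕ) : Set Oracle :=
  {A | ∃ x : List Bool, (qb V).eval (2 * x.length + 1 + p.eval x.length) ≤ lam α n ∧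
    ∀ y : List Bool, y.length ≤ p.eval x.length →
      V.out (oracle Φ E₀ A) (pairBits x y) ≠ some [true]}

/-- the algorithm `h` finds a proof of `code n j` in the system `M` -/
def GS (M h : Alg) (n j : ℕ) : Set Oracle :=
  {A | ∃ u : List Bool, h.out (oracle Φ E₀ A) (true :: List.replicate n true) = some u ∧
    M.out (oracle Φ E₀ A) u = some (code n j)}

/-- the pair `(F, G)` reduces the search for a hit in block `(n, j)` to the search problem given
by `V` and `p` -/
def GF (V : Alg) (p : Polynomial ℕ) (r : Alg × Alg) (n j : ℕ) : Set Oracle :=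
  {A | ∃ x : List Bool, r.1.out (oracle Φ E₀ A) (List.replicate n true) = some x ∧
    ∀ y : List Bool, y.length ≤ p.eval x.length →
      V.out (oracle Φ E₀ A) (pairBits x y) = some [true] →
      ∃ (c : ℕ) (w : List Bool), c < j ∧ w.length = n ∧
        r.2.out (oracle Φ E₀ A) (pairBits (List.replicate n true) y) = some (candStr c w) ∧
          Hit n (c, w) A}

end

variable {α : ℕ → ℕ} {g : ℕ → Pool.Agent.H620R2.Gauge.SAlg × Polynomial ℕ}
  {S : ℕ → Polynomial ℕ} {Φ : Oracle → Oracle}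

theorem EP_imp (hc : Cp g S (bt α) Φ) (M : Alg) {n : ℕ} (j : ℕ) {E E' A A' : Oracle}
    (hE : ∀ u : List Bool, u.length ≤ 2 ^ n → E u = E' u)
    (hA : ∀ u : List Bool, u.length ≤ 2 ^ n → A u = A' u) (h : A ∈ EP α Φ E M n j) :
    A' ∈ EP α Φ E' M n j := by
  obtain ⟨u, hu, h1⟩ := h
  exact ⟨u, hu, by rw [← out_loc hc M hE hA (hu.1.trans (lam_le α n)), h1]⟩

theorem EP_congr (hc : Cp g S (bt α) Φ) (M : Alg) {n : ℕ} (j : ℕ) {E E' : Oracle}
    (hE : ∀ u : List Bool, u.length ≤ 2 ^ n → E u = E' u) :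
    EP α Φ E M n j = EP α Φ E' M n j := by
  ext A
  exact ⟨EP_imp hc M j hE fun _ _ => rfl, EP_imp hc M j (fun u hu => (hE u hu).symm)
    fun _ _ => rfl⟩

theorem loc_EP (hc : Cp g S (bt α) Φ) (E₀ : Oracle) (M : Alg) (n j : ℕ) :
    Loc {x | x.length ≤ 2 ^ n} (EP α Φ E₀ M n j) :=
  loc_of_imp fun _ _ hA => EP_imp hc M j (fun _ _ => rfl) hA

theorem EF_imp (hc : Cp g S (bt α) Φ) (V : Alg) (p : Polynomial ℕ) {n : ℕ} {E E' A A' : Oracle}
    (hE : ∀ u : List Bool, u.length ≤ 2 ^ n → E u = E' u)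
    (hA : ∀ u : List Bool, u.length ≤ 2 ^ n → A u = A' u) (h : A ∈ EF α Φ E V p n) :
    A' ∈ EF α Φ E' V p n := by
  obtain ⟨x, hx, h1⟩ := h
  refine ⟨x, hx, fun y hy => ?_⟩
  rw [← out_loc hc V hE hA ((eval_mono (qb V) ?_).trans (hx.trans (lam_le α n)))]
  · exact h1 y hy
  · rw [length_pairBits]
    omega

theorem EF_congr (hc : Cp g S (bt α) Φ) (V : Alg) (p : Polynomial ℕ) {n : ℕ} {E E' : Oracle}
    (hE : ∀ u : List Bool, u.length ≤ 2 ^ n → E u = E' u) :
    EF α Φ E V p n = EF α Φ E' V p n := by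
  ext A
  exact ⟨EF_imp hc V p hE fun _ _ => rfl, EF_imp hc V p (fun u hu => (hE u hu).symm)
    fun _ _ => rfl⟩

theorem loc_EF (hc : Cp g S (bt α) Φ) (E₀ : Oracle) (V : Alg) (p : Polynomial ℕ) (n : ℕ) :
    Loc {x | x.length ≤ 2 ^ n} (EF α Φ E₀ V p n) :=
  loc_of_imp fun _ _ hA => EF_imp hc V p (fun _ _ => rfl) hA

theorem loc_GS (hc : Cp g S (bt α) Φ) (E₀ : Oracle) (M h : Alg) (n j : ℕ) :
    ∃ r, Loc {x | x.length ≤ r} (GS Φ E₀ M h n j) := by
  obtain ⟨b, hb⟩ := loc_GoodS M h
  exact ⟨b.eval n, loc_pre hc E₀ (hb n j)⟩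

theorem loc_GF (hc : Cp g S (bt α) Φ) (E₀ : Oracle) (V : Alg) (p : Polynomial ℕ) (r : Alg × Alg)
    (n j : ℕ) : ∃ R, Loc {x | x.length ≤ R} (GF Φ E₀ V p r n j) := by
  obtain ⟨b1, hb1⟩ := r.1.out_length
  set X := b1.eval n with hX
  set Y := p.eval X with hY
  refine ⟨(qb r.1).eval n + (qb V).eval (2 * X + 1 + Y) + (qb r.2).eval (2 * n + 1 + Y) +
    (j + n + n + 2), loc_of_imp fun A A' hA => ?_⟩
  simp only [Set.mem_ofPred_eq] at hA
  rintro ⟨x, hx, h1⟩
  have hlen : (List.replicate n true).length = n := by simp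
  have hxl : x.length ≤ X := by
    have h3 := hb1 _ _ x hx
    rwa [hlen] at h3
  have e1 : r.1.out (oracle Φ E₀ A) (List.replicate n true) =
      r.1.out (oracle Φ E₀ A') (List.replicate n true) := by
    refine out_loc hc r.1 (fun _ _ => rfl) hA ?_
    rw [hlen]
    omega
  refine ⟨x, by rw [← e1, hx], fun y hy hV => ?_⟩
  have hyl : y.length ≤ Y := hy.trans (eval_mono p hxl)
  have e2 : V.out (oracle Φ E₀ A) (pairBits x y) = V.out (oracle Φ E₀ A') (pairBits x y) := by
    refine out_loc hc V (fun _ _ => rfl) hA ?_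
    have h4 : (qb V).eval (pairBits x y).length ≤ (qb V).eval (2 * X + 1 + Y) := by
      apply eval_mono
      rw [length_pairBits]
      omega
    omega
  rw [← e2] at hV
  obtain ⟨c, w, hc', hw, h4, h5⟩ := h1 y hy hV
  refine ⟨c, w, hc', hw, ?_, ?_⟩
  · rw [← h4]
    symm
    refine out_loc hc r.2 (fun _ _ => rfl) hA ?_
    have h6 : (qb r.2).eval (pairBits (List.replicate n true) y).length ≤
        (qb r.2).eval (2 * n + 1 + Y) := by
      apply eval_mono
      rw [length_pairBits, hlen]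
      omega
    omega
  · intro i hi
    rw [← h5 i hi]
    symm
    apply hA
    rw [length_pos, hw]
    show c + i + n + 2 ≤ _
    omega

/-- The key inequality for statements that there is no hit. -/
theorem key_T' (hc : Cp g S (bt α) Φ) (E₀ : Oracle) (M : Alg) : ∀ n ≥ 1, ∀ j ≤ n,
    ∀ (t : ℕ) (L : List (List Bool)), t < n →
    4 * prob (cyl t L ∩ (BadT n j ∩ EP α Φ E₀ M n j)) < prob (cyl t L ∩ BadT n j) →
    prob (cyl t L ∩ EP α Φ E₀ M n j ∩ (BadT n j)ᶜ) ≤ 5 / 16 * prob (cyl t L) := by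
  intro n hn j hj t L ht hchk
  refine key_T_gen (loc_EP hc E₀ M n j) (loc_EP hc E₀ M n j) hn hj ht ?_ hchk
  rintro B - ⟨u, hu, hout⟩
  obtain ⟨T, hT1, hT2⟩ := out_plant hc M hn E₀ B (W := blkT n) (m := n + j)
    (fun x hx => lt_length_spotsT (n := n) (j := j) x hx) hu.1
  refine ⟨T, ?_, fun h hh _ hd => ⟨u, hu, ?_⟩⟩
  · have := hu.2
    omega
  · rw [hT2 h hh hd, hout]

/-- Planting hits elsewhere does not help `h` to find proofs in the system `M`. -/
theorem hkey_S' (hc : Cp g S (bt α) Φ) (E₀ : Oracle) (M h : Alg) : ∃ P : Polynomial ℕ,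
    ∀ n j, 1 ≤ n → P.eval n ≤ lam α n → ∀ B ∈ BadS n j, B ∉ EP α Φ E₀ M n j →
      ∃ T : Finset Cand, T.card ≤ P.eval n ∧ ∀ hh ⊆ blkS n j, Disjoint hh T →
        plant (allSpots n hh) B ∉ GS Φ E₀ M h n j := by
  obtain ⟨bh, hbh⟩ := h.out_length
  refine ⟨(h.p + Polynomial.C 32 * M.p.comp bh + qb h + (qb M).comp bh).comp
    (Polynomial.X + 1), fun n j hn hb B _ hBE => ?_⟩
  simp only [Polynomial.eval_comp, Polynomial.eval_add, Polynomial.eval_X, Polynomial.eval_mul,
    Polynomial.eval_C, Polynomial.eval_one] at hb ⊢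
  have hlen : (true :: List.replicate n true).length = n + 1 := by simp
  have hW : ∀ x ∈ allSpots n (blkS n j), n < x.length := fun x hx =>
    lt_length_spotsS (n := n) (j := j) x hx
  obtain ⟨T1, hT1, hT1'⟩ := out_plant hc h hn E₀ B hW (u := true :: List.replicate n true)
    (by rw [hlen]; omega)
  rw [hlen] at hT1
  rcases ho : h.out (oracle Φ E₀ B) (true :: List.replicate n true) with _ | u
  · refine ⟨T1, by omega, fun hh hsub hd => ?_⟩
    rintro ⟨u, hu, -⟩
    rw [hT1' hh hsub hd, ho] at hu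
    simp at hu
  · have hul := hbh _ _ u ho
    rw [hlen] at hul
    have h4 := eval_mono M.p hul
    have h5 := eval_mono (qb M) hul
    obtain ⟨T2, hT2, hT2'⟩ := out_plant hc M hn E₀ B hW (u := u) (by omega)
    have h3 := Finset.card_union_le T1 T2
    refine ⟨T1 ∪ T2, by omega, fun hh hsub hd => ?_⟩
    rw [Finset.disjoint_union_right] at hd
    rintro ⟨v, hv, hv'⟩
    rw [hT1' hh hsub hd.1, ho] at hv
    simp only [Option.some.injEq] at hv
    subst hv
    rw [hT2' hh hsub hd.2] at hv'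
    have h6 := lam_le α n
    exact hBE ⟨u, ⟨by omega, by omega⟩, hv'⟩

/-- Planting hits elsewhere does not help a reduction to the search problem given by `V`. -/
theorem hkey_F' (hc : Cp g S (bt α) Φ) (E₀ : Oracle) (V : Alg) (p : Polynomial ℕ)
    (r : Alg × Alg) : ∃ P : Polynomial ℕ, ∀ n j, 1 ≤ n → P.eval n ≤ lam α n → ∀ B ∈ BadS n j,
    B ∉ EF α Φ E₀ V p n → ∃ T : Finset Cand, T.card ≤ P.eval n ∧ ∀ hh ⊆ blkS n j,
      Disjoint hh T → plant (allSpots n hh) B ∉ GF Φ E₀ V p r n j := by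
  obtain ⟨bx, hbx⟩ := r.1.out_length
  set PV : Polynomial ℕ := (V.p + qb V).comp (Polynomial.C 2 * bx + Polynomial.C 1 +
    p.comp bx) with hPV
  set PG : Polynomial ℕ := (r.2.p + qb r.2).comp (Polynomial.C 2 * Polynomial.X +
    Polynomial.C 1 + p.comp bx) with hPG
  refine ⟨r.1.p + qb r.1 + PV + PG + 1, fun n j hn hb B hB hBE => ?_⟩
  simp only [hPV, hPG, Polynomial.eval_comp, Polynomial.eval_add, Polynomial.eval_X,
    Polynomial.eval_one, Polynomial.eval_mul, Polynomial.eval_C] at hb ⊢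
  have hlen : (List.replicate n true).length = n := by simp
  have hW : ∀ x ∈ allSpots n (blkS n j), n < x.length := fun x hx =>
    lt_length_spotsS (n := n) (j := j) x hx
  obtain ⟨T1, hT1, hT1'⟩ := out_plant hc r.1 hn E₀ B hW (u := List.replicate n true)
    (by rw [hlen]; omega)
  rw [hlen] at hT1
  rcases ho : r.1.out (oracle Φ E₀ B) (List.replicate n true) with _ | x
  · refine ⟨T1, by omega, fun hh hsub hd => ?_⟩
    rintro ⟨x, hx, -⟩
    rw [hT1' hh hsub hd, ho] at hx
    simp at hx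
  · have hxl := hbx _ _ x ho
    rw [hlen] at hxl
    have hpx : p.eval x.length ≤ p.eval (bx.eval n) := eval_mono p hxl
    have hqV : (qb V).eval (2 * x.length + 1 + p.eval x.length) ≤
        (qb V).eval (2 * bx.eval n + 1 + p.eval (bx.eval n)) := eval_mono _ (by omega)
    have hex : ∃ y : List Bool, y.length ≤ p.eval x.length ∧
        V.out (oracle Φ E₀ B) (pairBits x y) = some [true] := by
      by_contra hcon
      push Not at hcon
      exact hBE ⟨x, by omega, hcon⟩
    obtain ⟨y, hy, hVy⟩ := hex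
    have hyl : y.length ≤ p.eval (bx.eval n) := hy.trans hpx
    have h4 : V.p.eval (pairBits x y).length ≤
        V.p.eval (2 * bx.eval n + 1 + p.eval (bx.eval n)) := eval_mono V.p (by
          rw [length_pairBits]; omega)
    have h4' : (qb V).eval (pairBits x y).length ≤
        (qb V).eval (2 * bx.eval n + 1 + p.eval (bx.eval n)) := eval_mono _ (by
          rw [length_pairBits]; omega)
    have h5 : r.2.p.eval (pairBits (List.replicate n true) y).length ≤
        r.2.p.eval (2 * n + 1 + p.eval (bx.eval n)) := eval_mono r.2.p (by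
          rw [length_pairBits, hlen]; omega)
    have h5' : (qb r.2).eval (pairBits (List.replicate n true) y).length ≤
        (qb r.2).eval (2 * n + 1 + p.eval (bx.eval n)) := eval_mono _ (by
          rw [length_pairBits, hlen]; omega)
    obtain ⟨T2, hT2, hT2'⟩ := out_plant hc V hn E₀ B hW (u := pairBits x y) (by omega)
    obtain ⟨T3, hT3, hT3'⟩ := out_plant hc r.2 hn E₀ B hW
      (u := pairBits (List.replicate n true) y) (by omega)
    have h3 := Finset.card_union_le (T1 ∪ T2) T3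
    have h3' := Finset.card_union_le T1 T2
    -- the candidate which is the output
    obtain ⟨κ₀, hκ₀⟩ : ∃ κ₀ : Cand, ∀ (c : ℕ) (w : List Bool),
        r.2.out (oracle Φ E₀ B) (pairBits (List.replicate n true) y) = some (candStr c w) →
          (c, w) = κ₀ := by
      by_cases hex : ∃ (c : ℕ) (w : List Bool),
          r.2.out (oracle Φ E₀ B) (pairBits (List.replicate n true) y) = some (candStr c w)
      · obtain ⟨c, w, hcw⟩ := hex
        refine ⟨(c, w), fun c' w' h' => ?_⟩
        rw [hcw] at h'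
        simp only [Option.some.injEq] at h'
        have e1 : c = c' := by rw [← lvl_candStr c w, h', lvl_candStr]
        have e2 : w = w' := by
          rw [← drop_candStr c w, h', e1, drop_candStr]
        rw [e1, e2]
      · exact ⟨(0, []), fun c w h' => absurd ⟨c, w, h'⟩ hex⟩
    refine ⟨insert κ₀ (T1 ∪ T2 ∪ T3), ?_, fun hh hsub hd => ?_⟩
    · have := Finset.card_insert_le κ₀ (T1 ∪ T2 ∪ T3)
      omega
    · rw [Finset.disjoint_insert_right, Finset.disjoint_union_right,
        Finset.disjoint_union_right] at hd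
      obtain ⟨hd0, ⟨hd1, hd2⟩, hd3⟩ := hd
      rintro ⟨x', hx', hall⟩
      rw [hT1' hh hsub hd1, ho] at hx'
      simp only [Option.some.injEq] at hx'
      subst hx'
      have hV' : V.out (oracle Φ E₀ (plant (allSpots n hh) B)) (pairBits x y) = some [true] := by
        rw [hT2' hh hsub hd2, hVy]
      obtain ⟨c, w, hc', hw, hout, hhit⟩ := hall y hy hV'
      rw [hT3' hh hsub hd3] at hout
      have hκ := hκ₀ c w hout
      have h6 : (c, w) ∉ hh := by
        rw [hκ]
        exact hd0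
      have h7 : Hit n (c, w) B := (M2.hit_plant h6 B).1 hhit
      refine hB (c, w) ?_ h7
      exact mem_cands.2 ⟨Finset.mem_range.2 hc', hw⟩

/-- The key inequality for countably many translators. -/
theorem key_union' (hα : Monotone α) (hα' : Tendsto α atTop atTop)
    {E : ℕ → ℕ → Set Oracle} {G : ℕ → ℕ → ℕ → Set Oracle} {P : ℕ → Polynomial ℕ}
    (locE : ∀ n j, ∃ r, Loc {x | x.length ≤ r} (E n j))
    (locG : ∀ l n j, ∃ r, Loc {x | x.length ≤ r} (G l n j))
    (hk : ∀ l n j, 1 ≤ n → (P l).eval n ≤ lam α n → ∀ B ∈ BadS n j, B ∉ E n j →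
      ∃ T : Finset Cand, T.card ≤ (P l).eval n ∧ ∀ hh ⊆ blkS n j, Disjoint hh T →
        plant (allSpots n hh) B ∉ G l n j) :
    ∃ F : ℕ → Finset ℕ, (∀ l, ∀ᶠ n in atTop, l ∈ F n) ∧
      (∀ n j, MeasurableSet {A : Oracle | ∃ l ∈ F n, A ∈ G l n j}) ∧
      ∀ n ≥ 1, ∀ j ≤ n, ∀ (t : ℕ) (L : List (List Bool)), t < n →
        4 * prob (cyl t L ∩ (BadS n j ∩ E n j)) < prob (cyl t L ∩ BadS n j) →
        prob (cyl t L ∩ {A : Oracle | ∃ l ∈ F n, A ∈ G l n j} ∩ (BadS n j)ᶜ) ≤
          5 / 16 * prob (cyl t L) := by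
  classical
  choose rG hG using locG
  set F : ℕ → Finset ℕ := fun n =>
    (Finset.range n).filter (fun l => 32 * (n * (P l).eval n) ≤ lam α n) with hF
  have hloc : ∀ n j, Loc {x | x.length ≤ (F n).sup (fun l => rG l n j)}
      {A : Oracle | ∃ l ∈ F n, A ∈ G l n j} := by
    intro n j A A' hA
    simp only [Set.mem_ofPred_eq]
    refine exists_congr fun l => and_congr_right fun hl => ?_
    exact hG l n j A A' fun x hx =>
      hA x (le_trans hx (Finset.le_sup (f := fun l => rG l n j) hl))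
  refine ⟨F, fun l => ?_, fun n j => measurableSet_of_loc (finite_length_le _) (hloc n j), ?_⟩
  · filter_upwards [le_lam hα hα' (Polynomial.C 32 * (Polynomial.X * P l)),
      eventually_gt_atTop l] with n hn hn'
    rw [hF]
    refine Finset.mem_filter.2 ⟨Finset.mem_range.2 hn', ?_⟩
    rwa [Polynomial.eval_mul, Polynomial.eval_mul, Polynomial.eval_C, Polynomial.eval_X] at hn
  · intro n hn j hj t L ht hchk
    obtain ⟨rE, hE⟩ := locE n j
    refine key_S_gen (hloc n j) hE hn hj ht ?_ hchk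
    intro B hB hBE
    have hlam := lam_le α n
    have hch : ∀ l ∈ F n, ∃ T : Finset Cand, T.card ≤ (P l).eval n ∧ ∀ hh ⊆ blkS n j,
        Disjoint hh T → plant (allSpots n hh) B ∉ G l n j := by
      intro l hl
      refine hk l n j hn ?_ B hB hBE
      have h1 := (Finset.mem_filter.1 hl).2
      have h2 : (P l).eval n ≤ n * (P l).eval n := Nat.le_mul_of_pos_left _ (by omega)
      omega
    choose! T hT1 hT2 using hch
    refine ⟨(F n).biUnion T, ?_, ?_⟩
    · have h1 : ((F n).biUnion T).card ≤ ∑ l ∈ F n, (P l).eval n :=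
        Finset.card_biUnion_le.trans (Finset.sum_le_sum fun l hl => hT1 l hl)
      have h2 : 32 * (n * ∑ l ∈ F n, (P l).eval n) ≤ n * 2 ^ n := by
        rw [Finset.mul_sum, Finset.mul_sum]
        calc ∑ l ∈ F n, 32 * (n * (P l).eval n) ≤ ∑ _l ∈ F n, 2 ^ n :=
              Finset.sum_le_sum fun l hl => ((Finset.mem_filter.1 hl).2).trans hlam
          _ = (F n).card * 2 ^ n := by simp
          _ ≤ n * 2 ^ n := by
              apply Nat.mul_le_mul_right
              calc (F n).card ≤ (Finset.range n).card := Finset.card_filter_le _ _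
                _ = n := Finset.card_range n
      have h3 : n * (32 * ∑ l ∈ F n, (P l).eval n) ≤ n * 2 ^ n := by
        calc n * (32 * ∑ l ∈ F n, (P l).eval n) = 32 * (n * ∑ l ∈ F n, (P l).eval n) := by ring
          _ ≤ _ := h2
      have h4 : 32 * ∑ l ∈ F n, (P l).eval n ≤ 2 ^ n :=
        Nat.le_of_mul_le_mul_left h3 (by omega)
      omega
    · rintro hh hsub hd ⟨l, hl, hl'⟩
      refine hT2 l hl hh hsub ?_ hl'
      exact Finset.disjoint_of_subset_right (Finset.subset_biUnion_of_mem T hl) hd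

end Pool.Agent.J6H49.OP
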