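import Pool.Agent.J6H49.OP.Late

/-!
# A table for the levels

The levels used in the diagonalization depend on the oracle, which contains a table for the levels.
The entries of the table depend on the shorter part of the oracle only.
-/

set_option autoImplicit false

namespace Pool.Agent.J6H49.OP

open MeasureTheory Filter Pool.Agent.NPC Pool.Agent.H628R3.RO Pool.Agent.J6H54.RO

/-- fixed points of functionals which look at shorter strings only -/
theorem exists_fixed (Ψ : Oracle → Oracle)
    (hΨ : ∀ (E E' : Oracle) (x : List Bool), (∀ y : List Bool, y.length < x.length → E y = E' y) →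
      Ψ E x = Ψ E' x) : ∃ E : Oracle, ∀ x, E x = Ψ E x := by
  have key : ∀ (n k k' : ℕ), n ≤ k → n ≤ k' → ∀ x : List Bool, x.length < n →
      (Ψ^[k] (fun _ => false)) x = (Ψ^[k'] (fun _ => false)) x := by
    intro n
    induction n with
    | zero => intro k k' _ _ x hx; omega
    | succ n ih =>
      intro k k' hk hk' x hx
      obtain ⟨k, rfl⟩ : ∃ i, k = i + 1 := ⟨k - 1, by omega⟩
      obtain ⟨k', rfl⟩ : ∃ i, k' = i + 1 := ⟨k' - 1, by omega⟩
      rw [Function.iterate_succ_apply', Function.iterate_succ_apply']
      exact hΨ _ _ x fun y hy => ih k k' (by omega) (by omega) y (by omega)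
  refine ⟨fun x => (Ψ^[x.length + 1] (fun _ => false)) x, fun x => ?_⟩
  show (Ψ^[x.length + 1] (fun _ => false)) x = _
  rw [Function.iterate_succ_apply']
  refine hΨ _ _ x fun y hy => ?_
  exact key (y.length + 1) _ _ (by omega) (by omega) y (by omega)

theorem lev_congr {Bad Err Err' : ℕ → ℕ → Set Oracle} {t : ℕ} {L : List (List Bool)} {T : ℕ → ℕ}
    {r : ℕ} (h : ∀ i < r, ∀ j, Err (T i) j = Err' (T i) j) :
    lev Bad Err t L T r = lev Bad Err' t L T r := by
  induction r with
  | zero => rfl
  | succ r ih =>
    rw [lev, lev, ih (fun i hi => h i (by omega))]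
    unfold chk
    rw [h r (by omega)]

/-- the schedule -/
noncomputable abbrev Ts (t : ℕ) : ℕ → ℕ := Tt Polynomial.X t

theorem Ts_bound {t i r : ℕ} (h : i < r) : 2 ^ (Ts t i) ≤ Ts t r := by
  have h1 : Ts t (i + 1) ≤ Ts t r := (Tt_strictMono Polynomial.X t).monotone h
  have h2 : Ts t (i + 1) = Gt Polynomial.X (Ts t i) := Tt_succ Polynomial.X t i
  have h3 := Gt_ge Polynomial.X (Ts t i)
  rw [Polynomial.eval_X] at h3
  omega

/-- the table exists -/
theorem exists_table {ι : Type} [Countable ι] (Bad : ι → ℕ → ℕ → Set Oracle)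
    (Err : Oracle → ι → ℕ → ℕ → Set Oracle)
    (hErr : ∀ (E E' : Oracle) (i : ι) (n j : ℕ),
      (∀ u : List Bool, u.length ≤ 2 ^ n → E u = E' u) → Err E i n j = Err E' i n j) :
    ∃ (E : Oracle) (e : ι → ℕ → List (List Bool) → ℕ), ∀ i t L l N,
      (E (pos (e i t L) l (List.replicate N true)) = true ↔
        ∃ r, N = Ts t r ∧ l < lev (Bad i) (Err E i) t L (Ts t) r) := by
  classical
  obtain ⟨e, he⟩ := exists_injective_nat (ι × ℕ × List (List Bool))
  obtain ⟨E, hE⟩ := exists_fixed (fun E x => decide (∃ (i : ι) (t : ℕ) (L : List (List Bool))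
    (l r : ℕ), x = pos (e (i, t, L)) l (List.replicate (Ts t r) true) ∧
      l < lev (Bad i) (Err E i) t L (Ts t) r)) (by
    intro E E' x hx
    apply decide_eq_decide.2
    refine exists_congr fun i => exists_congr fun t => exists_congr fun L => exists_congr fun l =>
      exists_congr fun r => and_congr_right fun hxr => ?_
    rw [lev_congr (Err := Err E i) (Err' := Err E' i)]
    intro k hk j
    refine hErr E E' i _ j fun u hu => hx u ?_
    have h1 := Ts_bound (t := t) hk
    rw [hxr, length_pos, List.length_replicate]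
    omega)
  refine ⟨E, fun i t L => e (i, t, L), fun i t L l N => ?_⟩
  rw [hE, decide_eq_true_eq]
  constructor
  · rintro ⟨i', t', L', l', r, h1, h2⟩
    obtain ⟨h3, h4, h5⟩ := pos_inj h1
    have h6 := he h3
    simp only [Prod.mk.injEq] at h6
    obtain ⟨rfl, rfl, rfl⟩ := h6
    subst h4
    have h7 := congrArg List.length h5
    rw [List.length_replicate, List.length_replicate] at h7
    exact ⟨r, h7, h2⟩
  · rintro ⟨r, rfl, h⟩
    exact ⟨i, t, L, l, r, rfl, h⟩

section

variable (Bad Err : ℕ → ℕ → Set Oracle) (t : ℕ) (L : List (List Bool))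

open Classical in
/-- the level for the length `N`; it is `0` if `N` is not in the schedule -/
noncomputable def vv (N : ℕ) : ℕ :=
  if h : ∃ r, N = Ts t r then lev Bad Err t L (Ts t) h.choose else 0

variable {Bad Err t L}

theorem vv_Ts (r : ℕ) : vv Bad Err t L (Ts t r) = lev Bad Err t L (Ts t) r := by
  have h : ∃ r', Ts t r = Ts t r' := ⟨r, rfl⟩
  unfold vv
  rw [dif_pos h]
  have h1 : r = h.choose := (Tt_strictMono Polynomial.X t).injective h.choose_spec
  rw [← h1]

theorem vv_ne {N : ℕ} : vv Bad Err t L N ≠ 0 ↔ ∃ r, N = Ts t r := by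
  constructor
  · intro h
    by_contra hcon
    apply h
    unfold vv
    rw [dif_neg hcon]
  · rintro ⟨r, rfl⟩
    rw [vv_Ts]
    have := four_le_lev (Bad := Bad) (Err := Err) (t := t) (L := L) (Ts t) r
    omega

theorem vv_le (N : ℕ) : vv Bad Err t L N ≤ N := by
  by_cases h : vv Bad Err t L N = 0
  · omega
  · obtain ⟨r, rfl⟩ := vv_ne.1 h
    rw [vv_Ts]
    exact Scheme.lev_le_Tt r

theorem lt_vv {l N : ℕ} : l < vv Bad Err t L N ↔
    ∃ r, N = Ts t r ∧ l < lev Bad Err t L (Ts t) r := by
  constructor
  · intro h
    obtain ⟨r, rfl⟩ := vv_ne.1 (by omega : vv Bad Err t L N ≠ 0)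
    rw [vv_Ts] at h
    exact ⟨r, rfl, h⟩
  · rintro ⟨r, rfl, h⟩
    rwa [vv_Ts]

end

theorem takeWhile_answers {v m : ℕ} (hv : v < m) (rest : List Bool) :
    (((List.range m).map (fun l => decide (l < v))) ++ rest).takeWhile id =
      List.replicate v true := by
  obtain ⟨d, rfl⟩ : ∃ d, m = v + (d + 1) := ⟨m - v - 1, by omega⟩
  have h1 : (List.range (v + (d + 1))).map (fun l => decide (l < v)) =
      List.replicate v true ++ false :: List.replicate d false := by
    rw [List.range_add, List.map_append]
    congr 1
    · apply List.eq_replicate_iff.2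
      refine ⟨by simp, ?_⟩
      intro b hb
      obtain ⟨l, hl, rfl⟩ := List.mem_map.1 hb
      rw [List.mem_range] at hl
      exact decide_eq_true hl
    · have h2 : false :: List.replicate d false = List.replicate (d + 1) false := rfl
      rw [h2]
      apply List.eq_replicate_iff.2
      refine ⟨by simp, ?_⟩
      intro b hb
      obtain ⟨l, hl, rfl⟩ := List.mem_map.1 hb
      obtain ⟨l', -, rfl⟩ := List.mem_map.1 hl
      apply decide_eq_false
      omega
  rw [h1, List.append_assoc, List.cons_append]
  exact takeWhile_repl v _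

theorem p_map_append {α : Type} [TEnc α] (w : List Bool) {Q : α → List (List Bool)}
    (hQ : Poly Q) : Poly (fun a => (Q a).map (fun q => w ++ q)) :=
  NPC.Poly.map (F := fun (_ : α) (q : List Bool) => w ++ q) hQ
    (Poly.append (NPC.Poly.const w) (Poly.snd Poly.id))

/-- functions computed with the help of the table of the levels and of further questions -/
theorem isFP_levels {B E : Oracle} (w : List Bool) (hw : ∀ x, B (w ++ x) = E x) (e : ℕ)
    {v : ℕ → ℕ} (hv : ∀ N, v N ≤ N)
    (hE : ∀ l N, E (pos e l (List.replicate N true)) = true ↔ l < v N)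
    {m : List Bool → ℕ} (hm : UPoly m) {Q : List Bool → List (List Bool)} (hQ : Poly Q)
    {H : List Bool × (List Bool × List Bool) → List Bool} (hH : Poly H) :
    IsFP B (fun y => H (y, (List.replicate (v (m y)) true, (Q y).map B))) := by
  have hm1 : UPoly (fun y => m y + 1) := UPoly.add hm (UPoly.const 1)
  have hq : Poly (fun y => (asks (m y + 1) e (List.replicate (m y) true)).map (fun q => w ++ q) ++
      Q y) := by
    refine Poly.append (p_map_append w (p_asks hm1 (UPoly.const e) (p_replicate hm true))) hQ
  have hH' : Poly (fun p : List Bool × List Bool =>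
      H (p.1, (p.2.takeWhile id, p.2.drop (m p.1 + 1)))) := by
    have h1 : Poly (fun p : List Bool × List Bool => p.1) := Poly.fst Poly.id
    have h2 : Poly (fun p : List Bool × List Bool => p.2) := Poly.snd Poly.id
    exact hH.comp (Poly.pair h1 (Poly.pair (p_takeWhile h2) (p_drop h2 (hm1.comp h1))))
  have h := IsFP.tt (A := B) hq hH'
  have he : (fun y => H (y, (List.replicate (v (m y)) true, (Q y).map B))) =
      (fun y => (fun p : List Bool × List Bool =>
        H (p.1, (p.2.takeWhile id, p.2.drop (m p.1 + 1)))) (y, (((asks (m y + 1) e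
          (List.replicate (m y) true)).map (fun q => w ++ q) ++ Q y).map B))) := by
    funext y
    have h1 : ((asks (m y + 1) e (List.replicate (m y) true)).map (fun q => w ++ q)).map B =
        (List.range (m y + 1)).map (fun l => decide (l < v (m y))) := by
      unfold asks
      rw [List.map_map, List.map_map]
      apply List.map_congr_left
      intro l _
      show B (w ++ pos e l (List.replicate (m y) true)) = decide (l < v (m y))
      rw [hw]
      have h3 := hE l (m y)
      by_cases h4 : l < v (m y)
      · rw [h3.2 h4, decide_eq_true h4]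
      · rw [decide_eq_false h4]
        by_contra hcon
        rw [Bool.not_eq_false] at hcon
        exact h4 (h3.1 hcon)
    have h2 := hv (m y)
    rw [List.map_append, h1]
    show _ = H (y, (((_ : List Bool) ++ _).takeWhile id, ((_ : List Bool) ++ _).drop (m y + 1)))
    rw [takeWhile_answers (by omega : v (m y) < m y + 1)]
    have h5 : (List.map (fun l => decide (l < v (m y))) (List.range (m y + 1)) ++
        List.map B (Q y)).drop (m y + 1) = List.map B (Q y) := by
      rw [List.drop_append_of_le_length (by simp), List.drop_of_length_le (by simp),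
        List.nil_append]
    rw [h5]
  rw [he]
  exact h

end Pool.Agent.J6H49.OP
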